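import Mathlib

set_option autoImplicit false

namespace Pool.Agent.Results.MP_887aa5_nt.Val5

/-- The Gaussian power sum `G_n(p)`. -/
def G (n p : ℕ) : GaussianInt :=
  ∑ a ∈ Finset.Icc 1 (p - 1), ∑ b ∈ Finset.Icc 1 (p - 1), (⟨(a : ℤ), (b : ℤ)⟩ : GaussianInt) ^ n

/-- `v_p(x + y i) = min (v_p x) (v_p y)`, with `v_p 0 = ⊤`. -/
noncomputable def v (p : ℕ) (z : GaussianInt) : ℕ∞ :=
  min (emultiplicity (p : ℤ) z.re) (emultiplicity (p : ℤ) z.im)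

lemma h1 : ((7 : ℕ) : ℤ) ^ 5 ∣ (G (5 * (7 - 1)) 7).re ∧ ((7 : ℕ) : ℤ) ^ 5 ∣ (G (5 * (7 - 1)) 7).im := by
  decide +kernel

theorem result : ¬ ∀ p r : ℕ, p.Prime → p % 4 = 3 → 7 ≤ p → 1 ≤ r →
    (Even r → v p (G (r * (p - 1)) p) = 0) ∧ (Odd r → v p (G (r * (p - 1)) p) = 3) := by
  intro h
  have h2 := (h 7 5 (by norm_num) (by norm_num) le_rfl (by norm_num)).2 (by decide)
  have h3 : ((5 : ℕ) : ℕ∞) ≤ v 7 (G (5 * (7 - 1)) 7) :=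
    le_min (pow_dvd_iff_le_emultiplicity.1 h1.1) (pow_dvd_iff_le_emultiplicity.1 h1.2)
  rw [h2] at h3
  exact absurd h3 (by decide)

end Pool.Agent.Results.MP_887aa5_nt.Val5
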